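import Pool.Agent.P.MP_26a8c3_nt.Adm.Fin

/-! Dense admissible subsets of `[1, T]`. -/

namespace Pool.Agent.Results.MP_26a8c3_nt.DenseAdmissible

theorem result :
    ∃ c : ℝ, 0 < c ∧ ∃ T₀ : ℕ, ∀ T : ℕ, T₀ ≤ T →
      ∃ A : Finset ℕ, (∀ n ∈ A, 1 ≤ n ∧ n ≤ T) ∧
        (∀ p : ℕ, p.Prime → ∃ a : ℕ, ∀ n ∈ A, ¬ n ≡ a [MOD p]) ∧
        (1 + c * Real.log (Real.log (Real.log (Real.log (T : ℝ)))) /
            (Real.log (Real.log (T : ℝ)) * Real.log (Real.log (Real.log (T : ℝ))))) *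
          (T : ℝ) / Real.log (T : ℝ) ≤ (A.card : ℝ) := by
  obtain ⟨T₀, h⟩ := Filter.eventually_atTop.1 Pool.Agent.P.MP_26a8c3_nt.Adm.main
  refine ⟨1 / 64000, by norm_num, T₀, fun T hT => ?_⟩
  obtain ⟨A, h1, h2, h3⟩ := h T hT
  exact ⟨A, fun n hn => Finset.mem_Icc.1 (h1 hn), h2, h3⟩

end Pool.Agent.Results.MP_26a8c3_nt.DenseAdmissible
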