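import Pool.Agent.P.MP_26a8c3_nt.ED.All
import Pool.Agent.P.MP_26a8c3_nt.QE.All

/-! The Brun-Titchmarsh inequality with an additive gain of a constant times the square of the
iterated logarithm, uniformly in the modulus, the class and the position of the interval. -/

namespace Pool.Agent.Results.MP_26a8c3_nt.LogLogSquared

theorem result :
    ∃ c : ℝ, 0 < c ∧ ∃ t₀ : ℝ, ∀ k : ℕ, ∀ l : ℤ, ∀ x y : ℝ,
      1 ≤ k → (k : ℝ) < y → y ≤ x → Int.gcd l (k : ℤ) = 1 → t₀ ≤ y / (k : ℝ) →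
        (({p : ℕ | p.Prime ∧ x - y < (p : ℝ) ∧ (p : ℝ) ≤ x ∧
            (p : ℤ) ≡ l [ZMOD (k : ℤ)]}.ncard : ℕ) : ℝ) <
          2 * y / ((Nat.totient k : ℝ) *
            (Real.log (y / (k : ℝ)) + c * Real.log (Real.log (y / (k : ℝ))) ^ 2)) := by
  obtain ⟨c, hc, t₀, h⟩ := Pool.Agent.P.MP_26a8c3_nt.ED.main_of_zf (by norm_num)
    Pool.Agent.P.MP_26a8c3_nt.QE.zf
  exact ⟨c, hc, t₀, fun k l x y hk _ _ _ ht => h k l x y hk ht⟩

end Pool.Agent.Results.MP_26a8c3_nt.LogLogSquared
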