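import Pool.Agent.P.MP_26a8c3_nt.Sp.D
import Pool.Agent.P.MP_26a8c3_nt.HybS.Sharp

/-! The segments of progressions on which the Brun-Titchmarsh inequality with the constant `2 - δ`
fails are sparse, whatever the size of `x`. -/

namespace Pool.Agent.Results.MP_26a8c3_nt.SparseBad

open Pool.Agent.P.MP_26a8c3_nt

theorem result (ε A : ℝ) (hε : 0 < ε) :
    ∃ δ : ℝ, 0 < δ ∧ ∀ (k g : ℕ) (y : ℝ) (X : Finset (ℝ × ℤ)),
      1 ≤ k → (k : ℝ) < y → g ∣ k → (k : ℝ) ≤ g * (y / (k : ℝ)) ^ A →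
      (∀ a ∈ X, (2 - δ) * y / ((Nat.totient k : ℝ) * Real.log (y / (k : ℝ))) ≤
        (({p : ℕ | p.Prime ∧ a.1 - y < (p : ℝ) ∧ (p : ℝ) ≤ a.1 ∧
          (p : ℤ) ≡ a.2 [ZMOD (k : ℤ)]}.ncard : ℕ) : ℝ)) →
      (∀ a ∈ X, ∀ b ∈ X, a ≠ b → |a.1 - b.1| ≤ y * (y / (k : ℝ)) ^ A ∧
        a.2 ≡ b.2 [ZMOD (g : ℤ)] ∧ (¬ a.2 ≡ b.2 [ZMOD (k : ℤ)] ∨ y ≤ |a.1 - b.1|)) →
      (X.card : ℝ) ≤ (y / (k : ℝ)) ^ ε := by
  obtain ⟨N, hN1, hN⟩ : ∃ N : ℕ, 1 ≤ N ∧ A ≤ N :=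
    ⟨max 1 ⌈A⌉₊, le_max_left _ _, (Nat.le_ceil _).trans (Nat.cast_le.2 (le_max_right _ _))⟩
  obtain ⟨δ₀, T₀, hδ₀, hT₀, h⟩ := Sp.sparse hε hN1
  have hc : 0 < 5 / 2 - Real.log 5 := by linarith [Real.log_five_lt_d9]
  set c := 5 / 2 - Real.log 5 with hcd
  have hL : 0 ≤ Real.log T₀ := Real.log_nonneg hT₀
  refine ⟨min δ₀ (2 * c / (Real.log T₀ + c)), lt_min hδ₀ (by positivity),
    fun k g y X hk hky hg hkg hbad hX => ?_⟩
  have hk' : (0 : ℝ) < k := by exact_mod_cast hk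
  have hy : 0 < y := hk'.trans hky
  have hT1 : 1 < y / k := (one_lt_div hk').2 hky
  have hl0 : 0 < Real.log (y / k) := Real.log_pos hT1
  have hφ : (0 : ℝ) < k.totient := by exact_mod_cast Nat.totient_pos.2 hk
  by_cases hT : T₀ ≤ y / k
  · have hA : (y / k) ^ A ≤ (y / k) ^ N := by
      rw [← Real.rpow_natCast]
      exact Real.rpow_le_rpow_of_exponent_le hT1.le hN
    obtain ⟨k₁, rfl⟩ := hg
    have hg0 : (0 : ℝ) < g := by exact_mod_cast Nat.pos_of_mul_pos_right hk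
    refine h g k₁ y X hk hT (le_of_mul_le_mul_left ?_ hg0) (fun a ha => le_trans ?_ (hbad a ha))
      fun a ha b hb hab => ⟨(hX a ha b hb hab).1.trans (by gcongr), (hX a ha b hb hab).2⟩
    · rw [← Nat.cast_mul]
      exact hkg.trans (by gcongr)
    · gcongr
      exact min_le_left _ _
  · rcases X.eq_empty_or_nonempty with rfl | ⟨a, ha⟩
    · simpa using Real.rpow_nonneg (zero_le_one.trans hT1.le) ε
    refine absurd (hbad a ha) (not_le.2 ?_)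
    obtain ⟨l', S, hS, hcard⟩ := HybS.exists_good (k := k) hk a.2 a.1 y
    rw [hcard]
    refine (HybS.sharp_fin hS hk hky).trans_le ?_
    have a1 : Real.log (y / k) ≤ Real.log T₀ := Real.log_le_log (by positivity) (not_le.1 hT).le
    have a2 := min_le_right δ₀ (2 * c / (Real.log T₀ + c))
    have a3 : 0 ≤ min δ₀ (2 * c / (Real.log T₀ + c)) := le_min hδ₀.le (by positivity)
    generalize min δ₀ (2 * c / (Real.log T₀ + c)) = δ at a2 a3 ⊢
    rw [le_div_iff₀ (by positivity)] at a2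
    rw [← hcd, div_le_div_iff₀ (by positivity) (by positivity)]
    have a4 : δ * (Real.log (y / k) + c) ≤ 2 * c := le_trans (by gcongr) a2
    nlinarith [mul_le_mul_of_nonneg_left a4 (mul_pos hy hφ).le]

end Pool.Agent.Results.MP_26a8c3_nt.SparseBad
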