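import Pool.Agent.P.MP_26a8c3_nt.U.All

/-! The Brun-Titchmarsh inequality with the constant `2 - c (log (y / k) / log x) ^ 2`, in the
whole range `k < y ≤ x`, with an absolute `c`. -/

namespace Pool.Agent.Results.MP_26a8c3_nt.UniformSaving

theorem result :
    ∃ c : ℝ, 0 < c ∧ ∀ k : ℕ, ∀ l : ℤ, ∀ x y : ℝ,
      1 ≤ k → (k : ℝ) < y → y ≤ x → Int.gcd l (k : ℤ) = 1 →
        (({p : ℕ | p.Prime ∧ x - y < (p : ℝ) ∧ (p : ℝ) ≤ x ∧
            (p : ℤ) ≡ l [ZMOD (k : ℤ)]}.ncard : ℕ) : ℝ) <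
          (2 - c * (Real.log (y / (k : ℝ)) / Real.log x) ^ 2) * y /
            ((Nat.totient k : ℝ) * Real.log (y / (k : ℝ))) :=
  Pool.Agent.P.MP_26a8c3_nt.U.main

end Pool.Agent.Results.MP_26a8c3_nt.UniformSaving
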